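import Pool.Agent.H19.P4.NearR
import Pool.Agent.H35.LBK.Lbk

/-!
# Labels with gain are near to the labels of the cell

`near_cell`: a two-sided label of a coordinate of the cell of a family is near to the label of the
cell, up to `2 ^ (Cy z)`, on the natural boxes at `(i, j)`, on half of the event, if no coordinate
before it has a better label on slightly smaller radii and windows.
-/

set_option autoImplicit false

namespace Pool.LBK

open Finset Real MvPolynomial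
open Pool.Agent.H49.Ent Pool.Agent.H32.Dense Pool.STK Pool.KA Pool.KSAT Pool.K2S Pool.PB Pool.S6C
open Pool.GEN (bt bd PtT LnT DepC NBx ChOK ChN Chn nlp)
open Pool.STAT (PN NDat2 CDat2)
open Pool.RLV (TmN)

variable {m J n : ℕ}

/-- The labels of the cell at `(i, j)`, before `l`. -/
noncomputable def Gc {F : Fam m J} (C : CDat2 F n) (c : ℕ → Fin m) (i j l : ℕ)
    (y : PtT F) (k : ℕ) : MvPolynomial (Option (Fin m)) ℝ :=
  if k < l then tr c (C.G i j (C.s i j y) (k + 1)) else 0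

/-- The labels of the cell at `(i, j)`, before `l`, line side. -/
noncomputable def Hc {F : Fam m J} (C : CDat2 F n) (c : ℕ → Fin m) (i j l : ℕ)
    (s : LnT F) (k : ℕ) : MvPolynomial (Option (Fin m)) ℝ :=
  if k < l then tr c (C.P i j (C.li i j s) (k + 1)) else 0

section
variable {F : Fam m J} {C : CDat2 F n} {X : F.Ω → ℕ → ℝ}
  {pa : Pool.STAT.Ln2 F → ℕ → Polynomial ℝ} {K a₀ w₀ z M : ℕ} {g : ℕ → ℕ → ℕ → ℕ} {A : F.Ω → Prop}

/-- A point of the natural box of the cell, in the coordinates of the family. -/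
theorem lift_b {c : ℕ → Fin m} {l : ℕ} (hc : Set.InjOn c (Set.Iio l)) (b : ℕ → ℝ) :
    ∃ b' : Option (Fin m) → ℝ, ∀ k ≤ l, (b' ∘ vc c) k = b k := by
  classical
  refine ⟨fun o => match o with
    | none => b 0
    | some x => if h : ∃ k < l, c k = x then b (h.choose + 1) else 0, fun k hk => ?_⟩
  cases k with
  | zero => rfl
  | succ k =>
    have hk' : k < l := by omega
    have hex : ∃ k' < l, c k' = c k := ⟨k, hk', rfl⟩
    show (if h : ∃ k' < l, c k' = c k then b (h.choose + 1) else 0) = b (k + 1)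
    rw [dif_pos hex]
    have h1 := hex.choose_spec
    have h2 : hex.choose = k := hc h1.1 hk' h1.2
    rw [h2]

/-- **The chain of the cell** at `(i, j)`. -/
theorem cell_chok (hC : C.Cnd2 X pa K a₀ w₀ z M g A) (c : ℕ → Fin m)
    (hX : ∀ ω, A ω → ∀ k < n, X ω (k + 1) = F.x ω (c k)) {i j l e : ℕ} (hi : i ≤ M) (hj : j ≤ M)
    (hl : l ≤ n) {B : F.Ω → Prop} (hBA : ∀ ω, B ω → A ω)
    (hlip : ∀ ω, B ω → ∀ k < l, ∀ b : Option (Fin m) → ℝ,
      NBx c (Gc C c i j l (ptr F J ω)) (fun k => g i j (k + 1)) (a₀ + i * z) (F.t ω) k b →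
      ∀ k' < k, |eval b (pderiv (some (c k')) (Gc C c i j l (ptr F J ω) k))| ≤
        2 ^ (e + nlp (fun k => g i j (k + 1)) k' k)) :
    ChOK F c l (fun _ => K) (a₀ + i * z) (w₀ + j * z) e (fun k => g i j (k + 1)) B
      (Gc C c i j l) (Hc C c i j l) := by
  have d0 : ∀ k : ℕ, DepC c k (0 : MvPolynomial (Option (Fin m)) ℝ) := by
    intro k b b' _ _
    rw [map_zero, map_zero]
  have hbt : ∀ ω, A ω → ∀ (Q : PN) (k : ℕ), k ≤ n → Q.vars ⊆ range (k + 1) →
      eval (bt F ω) (tr c Q) = eval (X ω) Q := by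
    intro ω hω Q k hk hQ
    rw [eval_tr]
    refine eval_vars hQ fun k' hk' => ?_
    cases k' with
    | zero => exact (hC.X_zero ω).symm
    | succ k' => exact (hX ω hω k' (by omega)).symm
  refine ⟨fun y k => ?_, fun s k => ?_, fun y k => ?_, fun s k => ?_, fun ω hω k hk => ?_,
    fun ω hω k hk b hb => ?_, fun ω hω k hk b hb k' hk' => hlip ω hω k hk b hb k' hk'⟩
  · unfold Gc
    split_ifs with h1
    · exact (deg_tr c _).trans (hC.Gdeg i hi j hj _ _ (by omega) (by omega))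
    · rw [totalDegree_zero]
      exact Nat.zero_le _
  · unfold Hc
    split_ifs with h1
    · exact (deg_tr c _).trans (hC.Pdeg i hi j hj _ _ (by omega) (by omega))
    · rw [totalDegree_zero]
      exact Nat.zero_le _
  · unfold Gc
    split_ifs with h1
    · exact dep_tr (hC.Gtri i hi j hj _ _ (by omega) (by omega))
    · exact d0 k
  · unfold Hc
    split_ifs with h1
    · exact dep_tr (hC.Ptri i hi j hj _ _ (by omega) (by omega))
    · exact d0 k
  · have hA := hBA ω hω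
    unfold Gc
    rw [if_pos hk, hbt ω hA _ k (by omega) (hC.Gtri i hi j hj _ _ (by omega) (by omega)),
      ← hX ω hA k (by omega)]
    exact hC.pos i hi j hj ω hA (k + 1) (by omega) (by omega)
  · have hA := hBA ω hω
    have hb' : C.Nb2 X g i j (a₀ + i * z) (k + 1) ω (b ∘ vc c) := by
      refine ⟨?_, fun k' h1 h2 => ?_⟩
      · rw [hC.X_zero ω]
        exact hb.1
      · obtain ⟨k'', rfl⟩ : ∃ k'', k' = k'' + 1 := ⟨k' - 1, by omega⟩
        have h3 := hb.2 k'' (by omega)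
        unfold Gc at h3
        rw [if_pos (by omega), eval_tr] at h3
        exact h3
    unfold Gc Hc
    rw [if_pos hk, if_pos hk, eval_tr, eval_tr]
    have h1 := hC.agr i hi j hj ω hA (k + 1) (by omega) (by omega) (b ∘ vc c) hb'
    unfold CDat2.Ps2 CDat2.Ph2 at h1
    rw [if_neg (by omega)] at h1
    exact h1

end

/-- **Two labels of one coordinate of a cell are near**, if the coordinates before it have no better
labels. -/
theorem near_cell (V l K : ℕ) : ∃ Cy κ N Kn : ℕ, 1 ≤ κ ∧ ∀ {m J n : ℕ} {F : Fam m J}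
    {C : CDat2 F n} {X : F.Ω → ℕ → ℝ} {pa : Pool.STAT.Ln2 F → ℕ → Polynomial ℝ}
    {a₀ w₀ z M : ℕ} {g : ℕ → ℕ → ℕ → ℕ} {A B : F.Ω → Prop} {i j e e₀ y₀ P : ℕ}
    {UD : Pool.STAT.Pt2 F → PN} {UL : Pool.STAT.Ln2 F × ℕ → PN},
    C.Cnd2 X pa K a₀ w₀ z M g A → ∀ c : ℕ → Fin m, Set.InjOn c (Set.Iio l) →
    (∀ ω, A ω → ∀ k < n, X ω (k + 1) = F.x ω (c k)) → i ≤ M → j ≤ M → w₀ + j * z ≤ J →
    w₀ + j * z ≤ a₀ + i * z → l < n →
    (∀ x, (UD x).totalDegree ≤ K ∧ (UD x).vars ⊆ range (l + 1)) →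
    (∀ x, (UL x).totalDegree ≤ K ∧ (UL x).vars ⊆ range (l + 1)) →
    (∀ ω, B ω → A ω) → 1 ≤ g i j (l + 1) → g i j (l + 1) ≤ P →
    (∀ ω, B ω → |X ω (l + 1) - eval (X ω) (UD (ptr F J ω))| ≤ 1 / 2 ^ P) →
    (∀ ω, B ω → ∀ b : ℕ → ℝ, C.Nb2 X g i j (a₀ + i * z) (l + 1) ω b →
      |eval b (UD (ptr F J ω)) - eval b (UL (slam F w₀ ω, F.T1 w₀ ω))| ≤ 1 / 2 ^ P) →
    (∀ ω, B ω → ∀ k < l, ∀ b : Option (Fin m) → ℝ,
      NBx c (Gc C c i j l (ptr F J ω)) (fun k => g i j (k + 1)) (a₀ + i * z) (F.t ω) k b →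
      ∀ k' < k, |eval b (pderiv (some (c k')) (Gc C c i j l (ptr F J ω) k))| ≤
        2 ^ (e + nlp (fun k => g i j (k + 1)) k' k)) →
    TmN F N e₀ B → e₀ + 1 ≤ z → κ ≤ z →
    (∀ k < l, ∀ k' < k, nlp (fun k => g i j (k + 1)) k' k ≤ y₀) →
    (∀ k < l, Cy * z ≤ g i j (k + 1) ∧ g i j (k + 1) + e + y₀ + Cy * z ≤ J) →
    w₀ + j * z + Cy * z ≤ J →
    (∀ k < l, ∀ μ, z ≤ μ → μ ≤ Cy * z → ∀ B' : F.Ω → Prop, Sub B' B →
      Pe F.p B ≤ N * Pe F.p B' → ∀ (e' : ℕ) (g' : ℕ → ℕ),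
      (∀ k' < k, g' k' ≤ g i j (k' + 1) + 4 * μ) → g i j (k + 1) + V * μ ≤ g' k →
      g' k ≤ g i j (k + 1) + (V + 4) * μ →
      ¬ ChN F c (k + 1) (fun _ => Kn) (a₀ + i * z + 4 * μ) (w₀ + j * z + 4 * μ) e' g' B') →
    ∃ B' : F.Ω → Prop, Sub B' B ∧ Pe F.p B ≤ 2 * Pe F.p B' ∧ ∀ ω, B' ω → ∀ b : ℕ → ℝ,
      C.Nb2 X g i j (a₀ + i * z) (l + 1) ω b →
        |eval b (UD (ptr F J ω)) - eval b (C.Ps2 i j ω (l + 1))| ≤
          2 ^ (Cy * z) / 2 ^ g i j (l + 1) := by
  obtain ⟨Cy, κ, N, Kn, hκ, hrel⟩ := Pool.RLV.near_rel V K l (fun _ => K)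
  refine ⟨Cy + 1, κ, N, Kn, hκ, ?_⟩
  intro m J n F C X pa a₀ w₀ z M g A B i j e e₀ y₀ P UD UL hC c hc hX hi hj hwJ hwa hl hUD hUL hBA
    hg1 hgP hown htwo hlip hT he0 hκz hnl hgJ hwC hno
  have hCy : (Cy + 1) * z = Cy * z + z := by ring
  have hz1 : 1 ≤ z := by omega
  have hch := cell_chok hC c hX hi hj hl.le hBA hlip
  obtain ⟨g₁, hg₁⟩ : ∃ g₁, g i j (l + 1) = g₁ + 1 := ⟨g i j (l + 1) - 1, by omega⟩
  have h2P : (1 : ℝ) / 2 ^ P ≤ 1 / 2 ^ (g₁ + 1) :=
    one_div_le_one_div_of_le (by positivity) (pow_le_pow_right₀ (by norm_num) (by omega))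
  have h2g : (1 : ℝ) / 2 ^ (g₁ + 1) + 1 / 2 ^ (g₁ + 1) = 1 / 2 ^ g₁ := by
    rw [pow_succ]
    field_simp
    norm_num
  have hbt : ∀ ω, A ω → ∀ (Q : PN) (k : ℕ), k ≤ n → Q.vars ⊆ range (k + 1) →
      eval (bt F ω) (tr c Q) = eval (X ω) Q := by
    intro ω hω Q k hk hQ
    rw [eval_tr]
    refine eval_vars hQ fun k' hk' => ?_
    cases k' with
    | zero => exact (hC.X_zero ω).symm
    | succ k' => exact (hX ω hω k' (by omega)).symm
  have hGv : ∀ x, (C.G i j x (l + 1)).vars ⊆ range (l + 1) := fun x =>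
    hC.Gtri i hi j hj _ _ (by omega) (by omega)
  have hPv : ∀ x, (C.P i j x (l + 1)).vars ⊆ range (l + 1) := fun x =>
    hC.Ptri i hi j hj _ _ (by omega) (by omega)
  have hsub : ∀ {Q Q' : MvPolynomial (Option (Fin m)) ℝ}, DepC c l Q → DepC c l Q' →
      DepC c l (Q - Q') := fun h h' b b' h0 h1 => by
    rw [map_sub, map_sub, h b b' h0 h1, h' b b' h0 h1]
  obtain ⟨B', k1, k2, k3⟩ := hrel (N₀ := g₁)
    (Dx := fun y => tr c (UD y) - tr c (C.G i j (C.s i j y) (l + 1)))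
    (Dl := fun s => tr c (UL ((s.1, s.2.1, s.2.2 / 2 ^ (j * z)), s.2.2 / 2 ^ (j * z))) -
      tr c (C.P i j (C.li i j s) (l + 1))) hwa hc hch
    (fun y => (totalDegree_sub _ _).trans (max_le ((deg_tr c _).trans (hUD y).1)
      ((deg_tr c _).trans (hC.Gdeg i hi j hj _ _ (by omega) (by omega)))))
    (fun s => (totalDegree_sub _ _).trans (max_le ((deg_tr c _).trans (hUL _).1)
      ((deg_tr c _).trans (hC.Pdeg i hi j hj _ _ (by omega) (by omega)))))
    (fun y => hsub (dep_tr (hUD y).2) (dep_tr (hGv _)))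
    (fun s => hsub (dep_tr (hUL _).2) (dep_tr (hPv _)))
    (fun ω hω => by
      have hA := hBA ω hω
      rw [map_sub, hbt ω hA _ l hl.le (hUD _).2, hbt ω hA _ l hl.le (hGv _)]
      have q1 := (hown ω hω).trans h2P
      have q2 := hC.pos i hi j hj ω hA (l + 1) (by omega) (by omega)
      rw [hg₁] at q2
      unfold CDat2.Ps2 at q2
      rw [← h2g]
      rw [abs_le] at q1 q2 ⊢
      constructor <;> linarith only [q1.1, q1.2, q2.1, q2.2])
    (fun ω hω b hb => by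
      have hA := hBA ω hω
      have hb' : C.Nb2 X g i j (a₀ + i * z) (l + 1) ω (b ∘ vc c) := by
        refine ⟨?_, fun k' h1 h2 => ?_⟩
        · rw [hC.X_zero ω]
          exact hb.1
        · obtain ⟨k'', rfl⟩ : ∃ k'', k' = k'' + 1 := ⟨k' - 1, by omega⟩
          have h3 := hb.2 k'' (by omega)
          unfold Gc at h3
          rw [if_pos (by omega), eval_tr] at h3
          exact h3
      have hs := slam_coarse F (Nat.le_add_right w₀ (j * z)) hwJ ω
      rw [Nat.add_sub_cancel_left] at hs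
      have hT1 : F.T1 w₀ ω = (slam F (w₀ + j * z) ω).2.2 / 2 ^ (j * z) := congrArg (·.2.2) hs
      have q1 := (htwo ω hω _ hb').trans h2P
      rw [hs, hT1] at q1
      have q2 := hC.agr i hi j hj ω hA (l + 1) (by omega) (by omega) _ hb'
      unfold CDat2.Ps2 CDat2.Ph2 at q2
      rw [if_neg (by omega), hg₁] at q2
      rw [map_sub, map_sub, eval_tr, eval_tr, eval_tr, eval_tr, ← h2g]
      rw [abs_le] at q1 q2 ⊢
      constructor <;> linarith only [q1.1, q1.2, q2.1, q2.2])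
    hT he0 hκz hnl (fun k hk => by
      have := hgJ k hk
      constructor
      · exact le_trans (by omega) this.1
      · show g i j (k + 1) + e + y₀ + Cy * z ≤ J
        omega) (by omega)
    (fun k hk μ h1 h2 B' h3 h4 e' g' h5 h6 h7 => hno k hk μ h1 (by omega) B' h3 h4 e' g' h5 h6 h7)
  refine ⟨B', k1, k2, fun ω hω b hb => ?_⟩
  obtain ⟨b', hb'⟩ := lift_b hc b
  have hev : ∀ Q : PN, Q.vars ⊆ range (l + 1) → eval b' (tr c Q) = eval b Q := fun Q hQ => by
    rw [eval_tr]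
    exact eval_vars hQ fun k hk => hb' k hk
  have hbx : NBx c (Gc C c i j l (ptr F J ω)) (fun k => g i j (k + 1)) (a₀ + i * z) (F.t ω) l
      b' := by
    refine ⟨?_, fun k hk => ?_⟩
    · have h0 := hb' 0 (Nat.zero_le _)
      have h1 : b' none = b 0 := h0
      have h2 := hb.1
      rw [hC.X_zero ω] at h2
      rw [h1]
      exact h2
    · have h0 : b' (some (c k)) = b (k + 1) := hb' (k + 1) hk
      have h2 := hb.2 (k + 1) (by omega) (by omega)
      unfold Gc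
      rw [if_pos hk, h0, eval_tr]
      have h3 : eval (b' ∘ vc c) (C.G i j (C.s i j (ptr F J ω)) (k + 1)) =
          eval b (C.G i j (C.s i j (ptr F J ω)) (k + 1)) :=
        eval_vars (hC.Gtri i hi j hj _ _ (by omega) (by omega)) fun k' hk' => hb' k' (by omega)
      rw [h3]
      exact h2
  have h1 := k3 ω hω b' hbx
  rw [map_sub, hev _ (hUD _).2, hev _ (hGv _)] at h1
  refine h1.trans ?_
  rw [hg₁, hCy, div_le_div_iff₀ (by positivity) (by positivity), ← pow_add, ← pow_add]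
  exact pow_le_pow_right₀ (by norm_num) (by omega)

end Pool.LBK
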