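import Pool.Agent.H95.GN.Rle

/-!
# Two labels of one coordinate are near, if there are no better labels before

`near_rel`: a two-sided relation over a chain, small at the samples, is small on the natural boxes up
to `Cy z` digits, on half of the event, if no coordinate of the chain has a better label on slightly
smaller radii and windows.
-/

set_option autoImplicit false

namespace Pool.RLV

open Finset Real MvPolynomial
open Pool.Agent.H49.Ent Pool.Agent.H32.Dense Pool.STK Pool.KA Pool.KSAT Pool.K2S Pool.PB Pool.S6C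
open Pool.GEN
open Pool.CHT (dgp gls nbx_grow)

/-- A geometric sum. -/
theorem geo_sum {R Z l : ℕ} (h : 3 * R + 1 ≤ Z) : 3 * R * ∑ j ∈ range l, Z ^ j ≤ Z ^ l := by
  induction l with
  | zero => simp
  | succ l ih =>
    rw [sum_range_succ, mul_add, pow_succ]
    calc 3 * R * ∑ j ∈ range l, Z ^ j + 3 * R * Z ^ l ≤ Z ^ l + 3 * R * Z ^ l :=
          Nat.add_le_add_right ih _
      _ = Z ^ l * (3 * R + 1) := by ring
      _ ≤ _ := Nat.mul_le_mul_left _ h

/-- **No relation up to `Cy z` digits.** -/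
theorem near_rel (V D i : ℕ) (K : ℕ → ℕ) : ∃ Cy κ N Kn : ℕ, 1 ≤ κ ∧ ∀ {m J : ℕ} {F : Fam m J}
    {c : ℕ → Fin m} {a w e e₀ y₀ z N₀ : ℕ} {g : ℕ → ℕ} {A : F.Ω → Prop}
    {G : PtT F → ℕ → MvPolynomial (Option (Fin m)) ℝ}
    {H : LnT F → ℕ → MvPolynomial (Option (Fin m)) ℝ}
    {Dx : PtT F → MvPolynomial (Option (Fin m)) ℝ}
    {Dl : LnT F → MvPolynomial (Option (Fin m)) ℝ},
    w ≤ a → Set.InjOn c (Set.Iio i) → ChOK F c i K a w e g A G H →
    (∀ y, (Dx y).totalDegree ≤ D) → (∀ s, (Dl s).totalDegree ≤ D) →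
    (∀ y, DepC c i (Dx y)) → (∀ s, DepC c i (Dl s)) →
    (∀ ω, A ω → |eval (bt F ω) (Dx (ptr F J ω))| ≤ 1 / 2 ^ N₀) →
    (∀ ω, A ω → ∀ b, NBx c (G (ptr F J ω)) g a (F.t ω) i b →
      |eval b (Dx (ptr F J ω)) - eval b (Dl (slam F w ω))| ≤ 1 / 2 ^ N₀) →
    TmN F N e₀ A → e₀ + 1 ≤ z → κ ≤ z → (∀ l < i, ∀ l' < l, nlp g l' l ≤ y₀) →
    (∀ l < i, Cy * z ≤ g l ∧ g l + e + y₀ + Cy * z ≤ J) → w + Cy * z ≤ J →
    (∀ l < i, ∀ μ, z ≤ μ → μ ≤ Cy * z → ∀ B : F.Ω → Prop, Sub B A →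
      Pe F.p A ≤ N * Pe F.p B → ∀ (e' : ℕ) (g' : ℕ → ℕ), (∀ l' < l, g' l' ≤ g l' + 4 * μ) →
      g l + V * μ ≤ g' l → g' l ≤ g l + (V + 4) * μ →
      ¬ ChN F c (l + 1) (fun _ => Kn) (a + 4 * μ) (w + 4 * μ) e' g' B) →
    ∃ B : F.Ω → Prop, Sub B A ∧ Pe F.p A ≤ 2 * Pe F.p B ∧ ∀ ω, B ω → ∀ b,
      NBx c (G (ptr F J ω)) g a (F.t ω) i b →
        |eval b (Dx (ptr F J ω))| ≤ 2 ^ (Cy * z) / 2 ^ N₀ := by
  classical
  obtain ⟨κ, N, Kn, hκ, hrel⟩ := relv_fam (V + 2) D i K
  -- the ladder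
  obtain ⟨P, hP⟩ : ∃ P : ℕ, ∀ l < i, (V + 2 + 4) ^ (D * dgp K l i + 1) ≤ P :=
    ⟨∑ l ∈ range i, (V + 2 + 4) ^ (D * dgp K l i + 1), fun l hl =>
      Finset.single_le_sum (f := fun l => (V + 2 + 4) ^ (D * dgp K l i + 1))
        (fun _ _ => Nat.zero_le _) (mem_range.2 hl)⟩
  obtain ⟨R, hR⟩ : ∃ R : ℕ, ∀ l ≤ i, ∀ j < l, K l * dgp K j l ≤ R :=
    ⟨∑ l ∈ range (i + 1), ∑ j ∈ range l, K l * dgp K j l, fun l hl j hj =>
      (Finset.single_le_sum (f := fun j => K l * dgp K j l) (fun _ _ => Nat.zero_le _)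
        (mem_range.2 hj)).trans (Finset.single_le_sum
          (f := fun l => ∑ j ∈ range l, K l * dgp K j l) (fun _ _ => Nat.zero_le _)
          (mem_range.2 (Nat.lt_succ_of_le hl)))⟩
  obtain ⟨R', hR'⟩ : ∃ R' : ℕ, ∀ j < i, D * dgp K j i ≤ R' :=
    ⟨∑ j ∈ range i, D * dgp K j i, fun j hj =>
      Finset.single_le_sum (f := fun j => D * dgp K j i) (fun _ _ => Nat.zero_le _)
        (mem_range.2 hj)⟩
  obtain ⟨Z, hZ⟩ : ∃ Z, Z = P + 3 * (R + R') + 1 := ⟨_, rfl⟩
  have hZ1 : 1 ≤ Z := by omega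
  have hZp : ∀ l, 1 ≤ Z ^ l := fun l => Nat.one_le_pow _ _ hZ1
  obtain ⟨cE, hcE⟩ : ∃ cE : ℕ → ℕ, cE = fun l => κ * Z ^ l := ⟨_, rfl⟩
  have hcE' : ∀ l, cE l = κ * Z ^ l := fun l => by rw [hcE]
  have hE1 : ∀ l, 1 ≤ cE l := fun l => by
    rw [hcE']
    exact Nat.le_trans hκ (Nat.le_mul_of_pos_right _ (hZp l))
  have hEκ : ∀ l, κ ≤ cE l := fun l => by
    rw [hcE']
    exact Nat.le_mul_of_pos_right _ (hZp l)
  have hEmono : ∀ l ≤ i, cE l ≤ cE i := fun l hl => by
    rw [hcE', hcE']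
    exact Nat.mul_le_mul_left _ (Nat.pow_le_pow_right hZ1 hl)
  have hsum : ∀ (Q : ℕ), Q ≤ R + R' → ∀ l, ∑ j ∈ range l, 3 * cE j * Q ≤ cE l := by
    intro Q hQ l
    have h1 : 3 * (R + R') * ∑ j ∈ range l, Z ^ j ≤ Z ^ l := geo_sum (by omega)
    calc ∑ j ∈ range l, 3 * cE j * Q ≤ ∑ j ∈ range l, κ * (3 * (R + R') * Z ^ j) := by
          refine Finset.sum_le_sum fun j _ => ?_
          rw [hcE']
          calc 3 * (κ * Z ^ j) * Q = κ * (3 * Q * Z ^ j) := by ring
            _ ≤ _ := Nat.mul_le_mul_left _ (Nat.mul_le_mul_right _ (Nat.mul_le_mul_left _ hQ))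
      _ = κ * (3 * (R + R') * ∑ j ∈ range l, Z ^ j) := by
          rw [Finset.mul_sum, Finset.mul_sum]
      _ ≤ _ := by
          rw [hcE']
          exact Nat.mul_le_mul_left _ h1
  obtain ⟨Cy, hCy⟩ : ∃ Cy, Cy = 20 * cE i := ⟨_, rfl⟩
  refine ⟨Cy, κ, 2 * N, Kn, hκ, ?_⟩
  intro m J F c a w e e₀ y₀ z N₀ g A G H Dx Dl hwa hc hch hdx hdl hpx hpl hown htwo hT he0 hκz
    hnl hgJ hwJ hno
  by_cases hA0 : Pe F.p A = 0
  · refine ⟨fun _ => False, fun _ h => h.elim, ?_, fun _ h => h.elim⟩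
    rw [hA0]
    exact mul_nonneg (by norm_num) (Pe_nonneg F.isLaw _)
  have hA : 0 < Pe F.p A := lt_of_le_of_ne (Pe_nonneg F.isLaw A) (Ne.symm hA0)
  obtain ⟨Bad, hBad⟩ : ∃ Bad : F.Ω → Prop, Bad = fun ω => A ω ∧
      ∃ b, NBx c (G (ptr F J ω)) g a (F.t ω) i b ∧
        2 ^ (Cy * z) / 2 ^ N₀ ≤ |eval b (Dx (ptr F J ω))| := ⟨_, rfl⟩
  by_cases hB : Pe F.p A ≤ 2 * Pe F.p Bad
  · exfalso
    have hBA : Sub Bad A := fun ω h => by rw [hBad] at h; exact h.1
    have hBpos : 0 < Pe F.p Bad := by linarith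
    have hx : ∀ l < i, 3 * cE l * z ≤ g l := fun l hl => by
      have h1 := (hgJ l hl).1
      rw [hCy] at h1
      refine le_trans (Nat.mul_le_mul_right _ ?_) h1
      have := hEmono l hl.le
      omega
    obtain ⟨q, hq⟩ : ∃ q : ℕ → ℕ, q = fun l => g l - 3 * cE l * z := ⟨_, rfl⟩
    have hq' : ∀ l < i, q l + 3 * cE l * z = g l := fun l hl => by
      have := hx l hl
      rw [hq]
      show g l - 3 * cE l * z + 3 * cE l * z = g l
      omega
    have hgq : ∀ l < i, g l - q l = 3 * cE l * z := fun l hl => by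
      have := hq' l hl
      omega
    have hgls : ∀ l < i, gls K g q l ≤ cE l * z := by
      intro l hl
      unfold gls
      calc ∑ j ∈ range l, (g j - q j) * (K l * dgp K j l) ≤
            ∑ j ∈ range l, (3 * cE j * R) * z := by
            refine Finset.sum_le_sum fun j hj => ?_
            have hj' := mem_range.1 hj
            rw [hgq j (hj'.trans hl)]
            calc 3 * cE j * z * (K l * dgp K j l) ≤ 3 * cE j * z * R :=
                  Nat.mul_le_mul_left _ (hR l hl.le j hj')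
              _ = _ := by ring
        _ = (∑ j ∈ range l, 3 * cE j * R) * z := by rw [Finset.sum_mul]
        _ ≤ _ := Nat.mul_le_mul_right _ (hsum R (Nat.le_add_right _ _) l)
    obtain ⟨E, hE⟩ : ∃ E : ℕ → ℕ, E = fun l => if l = 0 then z else cE (l - 1) * z := ⟨_, rfl⟩
    have hE0 : E 0 = z := by rw [hE]; simp
    have hEs : ∀ l, E (l + 1) = cE l * z := fun l => by rw [hE]; simp
    have hz1 : 1 ≤ z := by omega
    have hκl : ∀ l, κ ≤ cE l * z := fun l => (hEκ l).trans (Nat.le_mul_of_pos_right _ hz1)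
    have hiz : ∀ l ≤ i, cE l * z ≤ cE i * z := fun l hl => Nat.mul_le_mul_right _ (hEmono l hl)
    have hCyz : Cy * z = 20 * (cE i * z) := by rw [hCy]; ring
    refine hrel (c := c) (a := a) (w := w) (e := e) (e₁ := e + y₀ + 3 * (cE i * z))
      (e' := (∑ l ∈ range i, g l) + (e + y₀ + 3 * (cE i * z)) + cE i * z) (e₀ := e₀)
      (y := Cy * z) (N₀ := N₀) (g := g) (q := q) (E := E) (A := Bad) (G := G) (H := H) (Dx := Dx)
      (Dl := Dl) hBpos hwa hc (hch.sub hBA) hdx hdl hpx hpl (fun ω hω => hown ω (hBA ω hω))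
      (fun ω hω => htwo ω (hBA ω hω)) (fun ω hω => by rw [hBad] at hω; exact hω.2)
      (hT.sub hBA (k := 2) (by push_cast; exact hB) le_rfl) (by rw [hE0]; exact he0)
      (fun l hl => by
        rw [hE0, hEs]
        exact Nat.mul_le_mul_right _ (hEκ l))
      (fun l hl => by
        rw [hEs, hEs, ← mul_assoc]
        refine Nat.mul_le_mul_right _ ?_
        rw [hcE', hcE', pow_succ]
        calc (V + 2 + 4) ^ (D * dgp K l i + 1) * (κ * Z ^ l) ≤ Z * (κ * Z ^ l) :=
              Nat.mul_le_mul_right _ ((hP l hl).trans (by omega))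
          _ = _ := by ring)
      (fun l hl => by have := hq' l hl; omega)
      (fun l hl => by
        have h1 := hq' l hl
        have h2 := hgls l hl
        have h3 := hκl l
        rw [hEs, ← h1]
        have h4 : 3 * cE l * z = cE l * z + cE l * z + cE l * z := by ring
        omega)
      (by
        rw [hEs, hCyz]
        have h1 : ∑ j ∈ range i, (g j - q j) * (D * dgp K j i) ≤ cE i * z := by
          calc ∑ j ∈ range i, (g j - q j) * (D * dgp K j i) ≤
                ∑ j ∈ range i, (3 * cE j * R') * z := by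
                refine Finset.sum_le_sum fun j hj => ?_
                have hj' := mem_range.1 hj
                rw [hgq j hj']
                calc 3 * cE j * z * (D * dgp K j i) ≤ 3 * cE j * z * R' :=
                      Nat.mul_le_mul_left _ (hR' j hj')
                  _ = _ := by ring
            _ = (∑ j ∈ range i, 3 * cE j * R') * z := by rw [Finset.sum_mul]
            _ ≤ _ := Nat.mul_le_mul_right _ (hsum R' (Nat.le_add_left _ _) i)
        have h3 := hκl i
        omega)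
      (fun l hl l' hl' => by
        have h1 := hnl l hl l' hl'
        have h2 := hgls l hl
        have h3 := hκl i
        have h4 := hiz l hl.le
        omega)
      (fun l hl l' hl' => by
        rw [hEs]
        have h1 : g l' ≤ ∑ l ∈ range i, g l :=
          Finset.single_le_sum (f := g) (fun _ _ => Nat.zero_le _)
            (mem_range.2 (lt_of_le_of_lt hl' hl))
        have h2 := hq' l' (lt_of_le_of_lt hl' hl)
        omega)
      (fun l hl => by
        rw [hEs]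
        have h1 := (hgJ l hl).2
        have h2 := hq' l hl
        omega)
      (by
        rw [hEs]
        omega)
      (fun l hl μ hμ1 hμ2 B hBB hPB => ?_)
    rw [hEs] at hμ1 hμ2
    have hμz : z ≤ μ := (Nat.le_mul_of_pos_left _ (hE1 l)).trans hμ1
    refine hno l hl μ hμz (by omega) B (fun ω h => hBA ω (hBB ω h)) (by
      push_cast
      linarith) _ _ (fun l' hl' => ?_) ?_ ?_
    · show (if l' < l then q l' + 4 * μ else q l + E (l + 1) + (V + 2) * μ) ≤ _
      rw [if_pos hl']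
      have := hq' l' (hl'.trans hl)
      omega
    · show _ ≤ (if l < l then q l + 4 * μ else q l + E (l + 1) + (V + 2) * μ)
      rw [if_neg (lt_irrefl l), hEs]
      have h1 := hq' l hl
      have h4 : 3 * cE l * z = cE l * z + cE l * z + cE l * z := by ring
      have h5 : (V + 2) * μ = V * μ + μ + μ := by ring
      omega
    · show (if l < l then q l + 4 * μ else q l + E (l + 1) + (V + 2) * μ) ≤ _
      rw [if_neg (lt_irrefl l), hEs]
      have h1 := hq' l hl
      have h5 : (V + 2) * μ = V * μ + 2 * μ := by ring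
      have h6 : (V + 4) * μ = V * μ + 4 * μ := by ring
      omega
  · rw [not_le] at hB
    refine ⟨fun ω => A ω ∧ ¬ Bad ω, fun ω h => h.1, ?_, ?_⟩
    · have h1 : Pe F.p A ≤ Pe F.p (fun ω => A ω ∧ ¬ Bad ω) + Pe F.p Bad := by
        unfold Pe law
        rw [← Finset.sum_add_distrib]
        refine Finset.sum_le_sum fun ω _ => ?_
        have h0 := F.isLaw.nonneg ω
        by_cases k1 : A ω <;> by_cases k2 : Bad ω <;> simp [k1, k2, h0]
      linarith
    · rintro ω ⟨h1, h2⟩ b hb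
      by_contra hcon
      rw [not_le] at hcon
      exact h2 (by rw [hBad]; exact ⟨h1, b, hb, hcon.le⟩)

end Pool.RLV
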